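import Pool.Agent.MWN.StmtsA

/-!
# MWN row NGM (helper39)

Words whose two one letter parts are related to one letter block words are block words: the one
letter parts are block words (NBF), so the word has the letters `0`, `1` and the simple letters in
their order; the types are related by ONE.
-/

set_option autoImplicit false

namespace Pool.Agent.MWN.H39

open Pool.Agent.Helper14_MV Pool.Agent.Helper2_MV Pool.Agent.MVO Pool.Agent.MWL Pool.Agent.MWS
  Pool.Agent.MWF

theorem ns01 {k c : ℕ} (h : c = 0 ∨ c = 1) : NS k c := by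
  rintro ⟨h1, h2⟩
  omega

theorem two_ok {k : ℕ} {W : ℕ → List ℕ} (h : Two01 k W) : BlkOk k W :=
  fun j hj c hc => ns01 (h j hj c hc)

/-- one of the two one letter parts -/
theorem part {β : FIC} (hone : MVO.OneStmt) (hnbf : ∀ (k : ℕ) (U : ℕ → List ℕ) (v : List ℕ),
    Two01 k U → RR β (asm k U) v → ∃ V : ℕ → List ℕ, v = asm k V ∧ Two01 k V)
    {k : ℕ} {w : List ℕ} {x y : ℕ} (hx : x = 0 ∨ x = 1) (hy : y = 0 ∨ y = 1) (hxy : x ≠ y)
    {a : ℕ → ℕ}
    (h : RR β (w.filter (fun c => decide (c ≠ y))) (asm k (fun j => List.replicate (a j) x))) :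
    (∀ c ∈ w, c = 0 ∨ c = 1 ∨ (2 ≤ c ∧ c ≤ k + 1)) ∧
    w.filter (fun c => decide (2 ≤ c ∧ c ≤ k + 1)) = seps k ∧
    ∀ W : ℕ → List ℕ, w = asm k W → BlkOk k W → L1 β k (ty W x) a := by
  have hU : Two01 k (fun j => List.replicate (a j) x) := by
    intro j _ c hc
    rw [List.eq_of_mem_replicate hc]
    exact hx
  obtain ⟨V, hV, hV2⟩ := hnbf k _ _ hU h.symm
  refine ⟨?_, ?_, ?_⟩
  · intro c hc
    by_cases hcy : c = y
    · rw [hcy]
      rcases hy with h1 | h1
      · exact Or.inl h1
      · exact Or.inr (Or.inl h1)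
    · have h1 : c ∈ w.filter (fun c => decide (c ≠ y)) :=
        List.mem_filter.2 ⟨hc, decide_eq_true hcy⟩
      rw [hV] at h1
      rcases mem_asm.1 h1 with h2 | ⟨j, hj, h2⟩
      · exact Or.inr (Or.inr h2)
      · rcases hV2 j hj c h2 with h3 | h3
        · exact Or.inl h3
        · exact Or.inr (Or.inl h3)
  · have h1 := filter_sep (two_ok hV2)
    rw [← hV, List.filter_filter] at h1
    rw [← h1]
    apply List.filter_congr
    intro c _
    by_cases hc : 2 ≤ c ∧ c ≤ k + 1
    · have h2 : c ≠ y := by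
        rcases hy with h3 | h3 <;> omega
      simp [hc, h2]
    · simp [hc]
  · intro W hW hok
    have h1 : w.filter (fun c => decide (c ≠ y)) =
        asm k (fun j => (W j).filter (fun c => decide (c ≠ y))) := by
      rw [hW]
      apply asm_filter
      intro c h2 _
      apply decide_eq_true
      rcases hy with h3 | h3 <;> omega
    rw [h1] at h
    have h2 := hone.1 β k _ _ x (ns01 hx)
      (fun j hj c hc => hok j hj c (List.mem_filter.1 hc).1) (two_ok hU) h
    have e1 : ∀ j, ((W j).filter (fun c => decide (c ≠ y))).count x = ty W x j := by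
      intro j
      exact List.count_filter (decide_eq_true hxy)
    have e2 : ∀ j, (List.replicate (a j) x).count x = a j := by
      intro j
      exact List.count_replicate_self
    simp only [e1, e2] at h2
    exact h2

theorem ngm (hone : MVO.OneStmt) (hnbf : NbfStmt) : NgmStmt := by
  intro β hcap hnc k a b w hpt
  obtain ⟨p1, p2, p3⟩ := part hone (hnbf β hcap hnc) (Or.inl rfl) (Or.inr rfl) (by decide) hpt.1
  obtain ⟨_, _, q3⟩ := part hone (hnbf β hcap hnc) (Or.inr rfl) (Or.inl rfl) (by decide) hpt.2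
  obtain ⟨W, hW, hw⟩ := dec p2
  have hok : BlkOk k W := fun j _ c hc => hW j c hc
  refine ⟨W, hw, ?_, p3 W hw hok, q3 W hw hok⟩
  intro j hj c hc
  have h1 : c ∈ w := by
    rw [hw]
    exact mem_asm.2 (Or.inr ⟨j, hj, hc⟩)
  rcases p1 c h1 with h2 | h2 | h2
  · exact Or.inl h2
  · exact Or.inr h2
  · exact absurd h2 (hW j c hc)

end Pool.Agent.MWN.H39
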